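import Pool.Agent.L5helper16.KL.Signs

/-!
# The Kloosterman angles for the members of automatic sets

Method: the members of an automatic set of more than polylogarithmic size are dominated by random integers with decaying
characteristic functions (`Pool.Agent.H491R4.AF`, helper491; `Pool.Agent.N794.CG`, helper794); for these the passage to sums
over primes of functions of residues is from the starting library (`Pool.Agent.R459.Eq`). The signs in the finite-field
model are from the starting files (`Pool.Agent.TH894.NF3`).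

From Mathlib: `DFA ℕ σ`: a deterministic finite automaton with the states `σ` which reads words of natural numbers;
`M.accepts`: the set of the accepted words; `Nat.digits b v`: the digits of `v` in base `b`, the least significant digit first.
-/

set_option autoImplicit false

namespace Pool.Agent.Results.MP_6ea630_nt.AutomaticSets

open Finset Filter Polynomial Pool.Agent.N794.CG Pool.Agent.L5helper16

/-- The Kloosterman sum `S(a, 1; p)`. -/
noncomputable def kloosterman (p : ℕ) (a : ℤ) : ℝ :=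
  ∑ x ∈ Ico 1 p, Real.cos (2 * Real.pi * ((((a : ZMod p) * (x : ZMod p) + (x : ZMod p)⁻¹).val : ℕ) : ℝ) / (p : ℝ))

/-- The angle `θ / π` in `[0, 1]`, where `2 p ^ (1 / 2) cos θ = S(a, 1; p)`, and `1 / 2` if `p` divides `a`. -/
noncomputable def angle (p : ℕ) (a : ℤ) : ℝ :=
  if (p : ℤ) ∣ a then 1 / 2 else Real.arccos (kloosterman p a / (2 * √(p : ℝ))) / Real.pi

open Classical in
/-- The number of the primes `p ≤ x` for which the angle of `S(a, 1; p)` is in `I`. -/
noncomputable def count (I : Set ℝ) (x : ℕ) (a : ℤ) : ℕ :=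
  ((range (x + 1)).filter (fun p => p.Prime ∧ angle p a ∈ I)).card

open Classical in
/-- The proportion of the residues `t` modulo `p` for which the angle at `P(t)` is in `I`. -/
noncomputable def proportion (P : ℤ[X]) (p : ℕ) (I : Set ℝ) : ℝ :=
  (((range p).filter (fun t : ℕ => angle p (P.eval (t : ℤ)) ∈ I)).card : ℝ) / p

/-- The sum of the proportions over the primes `p ≤ x`. -/
noncomputable def model (P : ℤ[X]) (I : Set ℝ) (x : ℕ) : ℝ :=
  ∑ p ∈ (range (x + 1)).filter Nat.Prime, proportion P p I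

open Classical in
/-- The number of the primes `p ≤ x` which do not divide `a` and satisfy `σ S(a, 1; p) > η p ^ (1 / 2)`. -/
noncomputable def signCount (σ η : ℝ) (x : ℕ) (a : ℤ) : ℕ :=
  ((range (x + 1)).filter (fun p : ℕ => p.Prime ∧ ¬ (p : ℤ) ∣ a ∧ η * √(p : ℝ) < σ * kloosterman p a)).card

open Classical in
/-- The integers `0 ≤ v < N` whose digits in base `b` (the least significant digit first) are accepted by the automaton. -/
noncomputable def members {S : Type} (b : ℕ) (M : DFA ℕ S) (N : ℕ) : Finset ℕ :=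
  (range N).filter (fun v => Nat.digits b v ∈ M.accepts)

open Classical in
/-- The members `v < N` have the property `P` up to a proportion of at most `τ`. -/
def Almost {S : Type} (b : ℕ) (M : DFA ℕ S) (N : ℕ) (τ : ℝ) (P : ℤ → Prop) : Prop :=
  (((members b M N).filter (fun v : ℕ => ¬ P v)).card : ℝ) ≤ τ * (members b M N).card

lemma almost_of {S : Type} {b : ℕ} {M : DFA ℕ S} {N : ℕ} {τ : ℝ} {P Q : ℤ → Prop}
    (h : Mostly (mem b M N) (fun _ => 1 / ((mem b M N).card : ℝ)) (fun v => 0 + 1 * (v : ℕ)) τ P) (hPQ : ∀ n, P n → Q n) :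
    Almost b M N τ Q := by
  classical
  have e : members b M N = mem b M N := by
    unfold members mem
    congr!
  have h1 := h ((mem b M N).filter (fun v : ℕ => ¬ Q v)) (filter_subset _ _)
    (fun i hi hP => (mem_filter.1 hi).2 (by
      have := hPQ _ hP
      simp only [zero_add, one_mul] at this
      exact this))
  unfold Almost
  rw [e]
  rw [sum_const, nsmul_eq_mul] at h1
  rcases Nat.eq_zero_or_pos (mem b M N).card with h0 | h0
  · have h2 : ((mem b M N).filter (fun v : ℕ => ¬ Q v)).card = 0 := by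
      have := card_filter_le (mem b M N) (fun v : ℕ => ¬ Q v)
      omega
    rw [h0]
    have h3 : (((mem b M N).filter (fun v : ℕ => ¬ Q v)).card : ℝ) = 0 := by exact_mod_cast h2
    simp only [Nat.cast_zero, mul_zero]
    apply le_of_eq
    rw [← h3]
  · have h2 : (0 : ℝ) < (mem b M N).card := by exact_mod_cast h0
    rw [mul_one_div, div_le_iff₀ h2] at h1
    refine le_trans (le_of_eq ?_) h1
    congr!

/-- Let `S` be an automatic set: the set of the integers `v ≥ 0` whose digits in base `b ≥ 2` are accepted by a finite automaton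
`M`, of more than polylogarithmic size: for every `k` there are infinitely many `N` such that more than `(log N) ^ k` elements
of `S` are smaller than `N`. Let `0 < δ ≤ 1 / 4`. There are `W` and `e` such that the following holds.

(1) For all sufficiently large `X`, all `N` and ALL polynomials `P ∈ ℤ[t]`: all `v ∈ S` with `v < N`, up to a proportion of at
most `2 (log N) ^ e X ^ (-δ)`, satisfy for ALL `x ≥ X` with `x ^ W ≤ N` and ALL intervals `I`: the number of the primes `p ≤ x`
for which the angle of the Kloosterman sum `S(P(v), 1; p)` is in `I` differs from the sum over `p ≤ x` of the proportion of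
the residues `t` modulo `p` for which the angle of `S(P(t), 1; p)` is in `I` by at most `2 x ^ (1 / 2 + δ)`.

(2) Let `0 ≤ η ≤ 1 / 4`, `ε > 0` and let `κ ≠ 0` be an integer. For all sufficiently large `X`, all `N` and all integers `c`: for
all `v ∈ S` with `v < N`, up to a proportion of at most `2 (log N) ^ e X ^ (-δ)`, the integer `a = c + κ v` satisfies, for all
`x ≥ X` with `x ^ W ≤ N`: both `S(a, 1; p) > η p ^ (1 / 2)` and `S(a, 1; p) < -η p ^ (1 / 2)` hold for at least
`(1 / 4 - η - ε) π(x)` of the primes `p ≤ x`. -/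
theorem result {S : Type} [Fintype S] (b : ℕ) (hb : 2 ≤ b) (M : DFA ℕ S)
    (hS : ∀ k : ℕ, ∃ᶠ N : ℕ in atTop, Real.log N ^ k < ((members b M N).card : ℝ)) (δ : ℝ) (hδ : 0 < δ) (hδ1 : δ ≤ 1 / 4) :
    ∃ W e : ℕ, 1 ≤ W ∧
    (∃ X₀ : ℕ, ∀ X : ℕ, X₀ ≤ X → ∀ (N : ℕ) (P : ℤ[X]),
      Almost b M N (2 * Real.log N ^ e * (X : ℝ) ^ (-δ)) (fun v => ∀ x : ℕ, X ≤ x → x ^ W ≤ N →
        ∀ I : Set ℝ, I.OrdConnected → |(count I x (P.eval v) : ℝ) - model P I x| ≤ 2 * (x : ℝ) ^ (1 / 2 + δ))) ∧
    (∀ η ε : ℝ, 0 ≤ η → η ≤ 1 / 4 → 0 < ε → ∀ κ : ℤ, κ ≠ 0 → ∃ X₀ : ℕ, ∀ X : ℕ, X₀ ≤ X → ∀ (N : ℕ) (c : ℤ),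
      Almost b M N (2 * Real.log N ^ e * (X : ℝ) ^ (-δ)) (fun v => ∀ x : ℕ, X ≤ x → x ^ W ≤ N →
        ∀ σ : ℝ, (σ = 1 ∨ σ = -1) → (1 / 4 - η - ε) * Nat.primeCounting x ≤ signCount σ η x (c + κ * v))) := by
  classical
  have e1 : ∀ N, members b M N = mem b M N := by
    intro N
    unfold members mem
    congr!
  obtain ⟨W, e, hW, H⟩ := eng_aut (fun X : ℕ => by positivity) (eng_ang δ hδ (by linarith)) b hb M
    (fun k => (hS k).mono fun N hN => by rwa [e1] at hN)
  obtain ⟨X₀, J⟩ := H 1 one_ne_zero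
  have main : ∀ X : ℕ, X₀ ≤ X → ∀ (N : ℕ) (P : ℤ[X]),
      Mostly (mem b M N) (fun _ => 1 / ((mem b M N).card : ℝ)) (fun v => 0 + 1 * (v : ℕ)) (2 * Real.log N ^ e * (X : ℝ) ^ (-δ))
        (fun v => ∀ x : ℕ, X ≤ x → x ^ W ≤ N → ∀ I : Set ℝ, I.OrdConnected →
        |(KL.count I x (P.eval v) : ℝ) - KL.model P I x| ≤ 2 * (x : ℝ) ^ (1 / 2 + δ)) := by
    intro X hX N P
    have h1 := J X hX N 0 (KL.sp P)
    have h2 := J X hX N 0 (KL.sn P)
    have h3 := Mostly.and (fun i _ => by positivity) h1 h2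
    have e : 2 * Real.log N ^ e * (X : ℝ) ^ (-δ) = Real.log N ^ e * (X : ℝ) ^ (-δ) + Real.log N ^ e * (X : ℝ) ^ (-δ) := by ring
    rw [e]
    exact h3.mono fun n hn x hXx hxW I hI => KL.all_intervals δ P x n (hn.1 x hXx hxW) (hn.2 x hXx hxW) I hI
  refine ⟨W, e, hW, ⟨X₀, fun X hX N P => almost_of (main X hX N P) fun n hn => hn⟩, ?_⟩
  intro η ε hη hη1 hε κ hκ
  obtain ⟨x₁, h1⟩ := KL.signs_of δ η ε hδ1 hη hη1 hε κ hκ
  refine ⟨X₀ + x₁, fun X hX N c => almost_of (main X (by omega) N (C c + C κ * Polynomial.X)) ?_⟩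
  intro n hn x hXx hxW σ hσ
  exact h1 x (by omega) c n (hn x hXx hxW) σ hσ

end Pool.Agent.Results.MP_6ea630_nt.AutomaticSets
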