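import Pool.Agent.L5helper16.KL.Signs

/-!
# The Kloosterman angles for random integers whose blocks of digits can be exchanged

Method: if blocks of digits can be exchanged then the exponential sums are exponentially small in the number of the
places at which the frequency is not close to a rational number with a small denominator (helper625,
`Pool.Agent.N625.PT`); a mixture with the uniform distribution has the decay which is needed for the passage to sums over
primes of functions of residues (helper794, `Pool.Agent.N794.CG`, and the starting library, `Pool.Agent.R459.Eq`). The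
signs in the finite-field model are from the starting files (`Pool.Agent.TH894.NF3`).
-/

set_option autoImplicit false

namespace Pool.Agent.Results.MP_6ea630_nt.ExchangeableDigits

open Finset Filter Polynomial Pool.Agent.N794.CG Pool.Agent.L5helper16

/-- The Kloosterman sum `S(a, 1; p)`. -/
noncomputable def kloosterman (p : ℕ) (a : ℤ) : ℝ :=
  ∑ x ∈ Ico 1 p, Real.cos (2 * Real.pi * ((((a : ZMod p) * (x : ZMod p) + (x : ZMod p)⁻¹).val : ℕ) : ℝ) / (p : ℝ))

/-- The angle `θ / π` in `[0, 1]`, where `2 p ^ (1 / 2) cos θ = S(a, 1; p)`, and `1 / 2` if `p` divides `a`. -/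
noncomputable def angle (p : ℕ) (a : ℤ) : ℝ :=
  if (p : ℤ) ∣ a then 1 / 2 else Real.arccos (kloosterman p a / (2 * √(p : ℝ))) / Real.pi

open Classical in
/-- The number of the primes `p ≤ x` for which the angle of `S(a, 1; p)` is in `I`. -/
noncomputable def count (I : Set ℝ) (x : ℕ) (a : ℤ) : ℕ :=
  ((range (x + 1)).filter (fun p => p.Prime ∧ angle p a ∈ I)).card

open Classical in
/-- The proportion of the residues `t` modulo `p` for which the angle at `P(t)` is in `I`. -/
noncomputable def proportion (P : ℤ[X]) (p : ℕ) (I : Set ℝ) : ℝ :=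
  (((range p).filter (fun t : ℕ => angle p (P.eval (t : ℤ)) ∈ I)).card : ℝ) / p

/-- The sum of the proportions over the primes `p ≤ x`. -/
noncomputable def model (P : ℤ[X]) (I : Set ℝ) (x : ℕ) : ℝ :=
  ∑ p ∈ (range (x + 1)).filter Nat.Prime, proportion P p I

open Classical in
/-- The number of the primes `p ≤ x` which do not divide `a` and satisfy `σ S(a, 1; p) > η p ^ (1 / 2)`. -/
noncomputable def signCount (σ η : ℝ) (x : ℕ) (a : ℤ) : ℕ :=
  ((range (x + 1)).filter (fun p : ℕ => p.Prime ∧ ¬ (p : ℤ) ∣ a ∧ η * √(p : ℝ) < σ * kloosterman p a)).card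

/-- The probability, for the distribution `μ` on the words of `k` digits (the integers `v < b ^ k`), that the word begins with
the `i` digits of `u < b ^ i`. -/
noncomputable def begins (b k : ℕ) (μ : ℕ → ℝ) (i u : ℕ) : ℝ := ∑ w ∈ range (b ^ (k - i)), μ (u * b ^ (k - i) + w)

/-- `w` is a probability on the words of `k` digits in base `b`, read as integers `v < b ^ k`. There is another probability
`μ` with `w ≤ k ^ T μ` such that after every beginning `u` two different blocks `a`, `a'` of `L` digits can be exchanged: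
`w (u a z) = r w (u a' z)` for all endings `z`, with a factor `r` between `β` and `1 / β` which does not depend on `z`; and
given the beginning `u`, each of the two blocks comes next with a probability of at least `β` in the distribution `μ`.
(For `T = 0` one has `μ = w`. For the uniform distribution on a set of words `r` is `1`.) -/
structure Exchangeable (b L : ℕ) (β : ℝ) (T k : ℕ) (w : ℕ → ℝ) : Prop where
  nonneg : ∀ v, 0 ≤ w v
  sum : ∑ v ∈ range (b ^ k), w v = 1
  dominated : ∃ μ : ℕ → ℝ, (∀ v, 0 ≤ μ v) ∧ ∑ v ∈ range (b ^ k), μ v = 1 ∧ (∀ v < b ^ k, w v ≤ (k : ℝ) ^ T * μ v) ∧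
    ∀ i u : ℕ, i + L ≤ k → u < b ^ i → ∃ (a a' : ℕ) (r : ℝ), a < a' ∧ a' < b ^ L ∧ β ≤ r ∧ β * r ≤ 1 ∧
      (∀ z < b ^ (k - (i + L)), w ((b ^ L * u + a) * b ^ (k - (i + L)) + z) = r * w ((b ^ L * u + a') * b ^ (k - (i + L)) + z)) ∧
      β * begins b k μ i u ≤ begins b k μ (i + L) (b ^ L * u + a) ∧
      β * begins b k μ i u ≤ begins b k μ (i + L) (b ^ L * u + a')

lemma begins_sum (b k : ℕ) (μ : ℕ → ℝ) (i u : ℕ) (hi : i < k) :
    ∑ a ∈ range b, begins b k μ (i + 1) (b * u + a) = begins b k μ i u := by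
  unfold begins
  obtain ⟨n, hn⟩ : ∃ n, k - i = n + 1 := ⟨k - i - 1, by omega⟩
  have h1 : k - (i + 1) = n := by omega
  rw [h1, hn, pow_succ, mul_comm (b ^ n) b, Pool.Agent.N625.PT.sum_blocks b (b ^ n)]
  apply sum_congr rfl
  intro a _
  apply sum_congr rfl
  intro w _
  congr 1
  ring

lemma flex_of {b L T k : ℕ} {η : ℝ} {p : ℕ → ℝ} (hp : Exchangeable b L η T k p) : Pool.Agent.N625.PT.Flex b L η T k p := by
  obtain ⟨h0, h1, μ, m0, m1, m2, m3⟩ := hp
  have hT : (0 : ℝ) ≤ (k : ℝ) ^ T := by positivity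
  have hb0 : ∀ i u, 0 ≤ begins b k μ i u := fun i u => sum_nonneg fun w _ => m0 _
  refine ⟨h0, h1, fun i u => (k : ℝ) ^ T * begins b k μ i u, fun i u => mul_nonneg hT (hb0 i u), ?_, ?_, ?_, ?_⟩
  · intro v hv
    refine (m2 v hv).trans (le_of_eq ?_)
    unfold begins
    simp
  · intro i hi u _
    simp only
    rw [← mul_sum, begins_sum b k μ i u hi]
  · simp only
    have : begins b k μ 0 0 = 1 := by
      unfold begins
      simpa using m1
    rw [this, mul_one]
  · intro i u hi hu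
    obtain ⟨a, a', r, q1, q2, q3, q4, q5, q6, q7⟩ := m3 i u hi hu
    refine ⟨a, a', r, q1, q2, q3, q4, q5, ?_, ?_⟩
    · simp only
      calc η * ((k : ℝ) ^ T * begins b k μ i u) = (k : ℝ) ^ T * (η * begins b k μ i u) := by ring
        _ ≤ _ := mul_le_mul_of_nonneg_left q6 hT
    · simp only
      calc η * ((k : ℝ) ^ T * begins b k μ i u) = (k : ℝ) ^ T * (η * begins b k μ i u) := by ring
        _ ≤ _ := mul_le_mul_of_nonneg_left q7 hT

open Classical in
/-- If `v < b ^ k` is random with the distribution `w`, then `P v` holds with a probability of at least `1 - τ`. -/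
def Almost (b k : ℕ) (w : ℕ → ℝ) (τ : ℝ) (P : ℤ → Prop) : Prop :=
  ∑ v ∈ range (b ^ k), (if P v then 0 else w v) ≤ τ

lemma almost_of {b k : ℕ} {p : ℕ → ℝ} {τ : ℝ} {P Q : ℤ → Prop}
    (h : Mostly (range (b ^ k)) p (fun v => 0 + 1 * (v : ℕ)) τ P) (hPQ : ∀ n, P n → Q n) : Almost b k p τ Q := by
  classical
  have h1 := h ((range (b ^ k)).filter (fun v : ℕ => ¬ Q v)) (filter_subset _ _)
    (fun i hi hP => (mem_filter.1 hi).2 (by
      have := hPQ _ hP
      simp only [zero_add, one_mul] at this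
      exact this))
  unfold Almost
  refine le_trans (le_of_eq ?_) h1
  rw [sum_filter]
  apply sum_congr rfl
  intro v _
  by_cases hv : Q v
  · rw [if_pos hv, if_neg (not_not.2 hv)]
  · rw [if_neg hv, if_pos hv]

/-- Let `b ≥ 2`, `L ≥ 1`, `0 < β ≤ 1`, `T` and `0 < δ ≤ 1 / 4` be fixed. There is `W` such that the following holds.

(1) For all sufficiently large `X`, all `k`, all probabilities `w` on the words of `k` digits in base `b` in which blocks of `L`
digits can be exchanged (`Exchangeable b L β T k w`) and ALL polynomials `P ∈ ℤ[t]`: if `v < b ^ k` is random with the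
distribution `w` then with a probability of at least `1 - 2 k ^ T X ^ (-δ)` one has, for ALL `x ≥ X` with `x ^ W ≤ b ^ k` and
ALL intervals `I`: the number of the primes `p ≤ x` for which the angle of the Kloosterman sum `S(P(v), 1; p)` is in `I`
differs from the sum over `p ≤ x` of the proportion of the residues `t` modulo `p` for which the angle of `S(P(t), 1; p)` is
in `I` by at most `2 x ^ (1 / 2 + δ)`.

(2) Let `0 ≤ η ≤ 1 / 4`, `ε > 0` and let `κ ≠ 0` be an integer. For all sufficiently large `X`, all `k`, `w` as in (1) and all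
integers `c`: with a probability of at least `1 - 2 k ^ T X ^ (-δ)` the integer `a = c + κ v` satisfies, for all `x ≥ X` with
`x ^ W ≤ b ^ k`: both `S(a, 1; p) > η p ^ (1 / 2)` and `S(a, 1; p) < -η p ^ (1 / 2)` hold for at least
`(1 / 4 - η - ε) π(x)` of the primes `p ≤ x`. -/
theorem result (b L : ℕ) (hb : 2 ≤ b) (hL : 1 ≤ L) (β : ℝ) (hβ0 : 0 < β) (hβ1 : β ≤ 1) (T : ℕ) (δ : ℝ) (hδ : 0 < δ)
    (hδ1 : δ ≤ 1 / 4) : ∃ W : ℕ, 1 ≤ W ∧
    (∃ X₀ : ℕ, ∀ X : ℕ, X₀ ≤ X → ∀ (k : ℕ) (w : ℕ → ℝ), Exchangeable b L β T k w → ∀ P : ℤ[X],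
      Almost b k w (2 * (k : ℝ) ^ T * (X : ℝ) ^ (-δ)) (fun v => ∀ x : ℕ, X ≤ x → x ^ W ≤ b ^ k →
        ∀ I : Set ℝ, I.OrdConnected → |(count I x (P.eval v) : ℝ) - model P I x| ≤ 2 * (x : ℝ) ^ (1 / 2 + δ))) ∧
    (∀ η ε : ℝ, 0 ≤ η → η ≤ 1 / 4 → 0 < ε → ∀ κ : ℤ, κ ≠ 0 → ∃ X₀ : ℕ, ∀ X : ℕ, X₀ ≤ X → ∀ (k : ℕ) (w : ℕ → ℝ),
      Exchangeable b L β T k w → ∀ c : ℤ,
      Almost b k w (2 * (k : ℝ) ^ T * (X : ℝ) ^ (-δ)) (fun v => ∀ x : ℕ, X ≤ x → x ^ W ≤ b ^ k →
        ∀ σ : ℝ, (σ = 1 ∨ σ = -1) → (1 / 4 - η - ε) * Nat.primeCounting x ≤ signCount σ η x (c + κ * v))) := by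
  obtain ⟨W, hW, H⟩ := eng_flex (fun X : ℕ => by positivity) (eng_ang δ hδ (by linarith)) b L hb hL β hβ0 hβ1 T
  obtain ⟨X₀, J⟩ := H 1 one_ne_zero
  have main : ∀ X : ℕ, X₀ ≤ X → ∀ (k : ℕ) (w : ℕ → ℝ), Exchangeable b L β T k w → ∀ P : ℤ[X],
      Mostly (range (b ^ k)) w (fun v => 0 + 1 * (v : ℕ)) (2 * (k : ℝ) ^ T * (X : ℝ) ^ (-δ)) (fun v => ∀ x : ℕ, X ≤ x →
        x ^ W ≤ b ^ k → ∀ I : Set ℝ, I.OrdConnected →
        |(KL.count I x (P.eval v) : ℝ) - KL.model P I x| ≤ 2 * (x : ℝ) ^ (1 / 2 + δ)) := by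
    intro X hX k w hw P
    have h1 := J X hX k w (flex_of hw) 0 (KL.sp P)
    have h2 := J X hX k w (flex_of hw) 0 (KL.sn P)
    have h3 := Mostly.and (fun i _ => hw.nonneg i) h1 h2
    have e : 2 * (k : ℝ) ^ T * (X : ℝ) ^ (-δ) = (k : ℝ) ^ T * (X : ℝ) ^ (-δ) + (k : ℝ) ^ T * (X : ℝ) ^ (-δ) := by ring
    rw [e]
    exact h3.mono fun n hn x hXx hxW I hI => KL.all_intervals δ P x n (hn.1 x hXx hxW) (hn.2 x hXx hxW) I hI
  refine ⟨W, hW, ⟨X₀, fun X hX k w hw P => almost_of (main X hX k w hw P) fun n hn => hn⟩, ?_⟩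
  intro η ε hη hη1 hε κ hκ
  obtain ⟨x₁, h1⟩ := KL.signs_of δ η ε hδ1 hη hη1 hε κ hκ
  refine ⟨X₀ + x₁, fun X hX k w hw c => almost_of (main X (by omega) k w hw (C c + C κ * Polynomial.X)) ?_⟩
  intro n hn x hXx hxW σ hσ
  exact h1 x (by omega) c n (hn x hXx hxW) σ hσ

end Pool.Agent.Results.MP_6ea630_nt.ExchangeableDigits
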