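import Pool.Agent.L5helper14.MetK.Law

/-!
# The Kloosterman angles at `s` consecutive primes for almost all real parameters: sequences of any growth, along the
integers and along the primes

Let `⌊y⌋` be the integral part of `y`.  For almost every real number `ξ` (Lebesgue measure) the integers
`a = ⌊ξ g(n) + c(n)⌋` (`g` any real sequence with `g(n + 1) - g(n) ≥ n ^ (ρ - 1)`, for instance `n`, `√n`, `n ^ 2`, `2 ^ n`,
`n !`; `c` any real sequence), the integers `a = ⌊ξ ^ g(n) + c(n)⌋` (`g` strictly increasing integers, `ξ > 1`), and more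
generally the values of families of functions with separated derivatives have angles of `S(P(a), 1; p)` at `s` consecutive
primes `p` which follow the finite-field model with square-root error, for all boxes and all `P ∈ ℤ[T]`, and all patterns of
`s` signs of `S(c₀ + κ a, 1; p)` with positive proportion, for all `n ≤ N` with `O(N ^ (1 - θ))` exceptions and the first
`K ≤ N ^ θ` primes; the same is true if `n` runs through the first `N` primes.

From Mathlib: `∀ᵐ ξ : ℝ`: for almost every real number `ξ` (Lebesgue measure); `Nat.nth Nat.Prime k`: the prime with the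
index `k`, starting with `k = 0`; `Set.OrdConnected`: intervals.

Method: a second moment argument over the parameters shows that for almost all parameters the sequences are uniformly
distributed modulo all moduli up to a power of `N` with a power saving, over the integers and over the primes (starting
files `Pool.Agent.N54.ME`); here this is turned into a power-saving distribution in residue classes for initial segments
(`Pool.Agent.L5helper14.MetK`), for which the starting files `Pool.Agent.N193.PS` have high moments and all boxes at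
consecutive primes; the signs in the finite-field model are from the starting files (`Pool.Agent.TH894.NF3`).
-/

set_option autoImplicit false

namespace Pool.Agent.Results.MP_6ea630_nt.MetricSequences

open Finset Filter Polynomial MeasureTheory

/-- The Kloosterman sum `S(a, 1; p)`. -/
noncomputable def kloosterman (p : ℕ) (a : ℤ) : ℝ :=
  ∑ x ∈ Ico 1 p, Real.cos (2 * Real.pi * ((((a : ZMod p) * (x : ZMod p) + (x : ZMod p)⁻¹).val : ℕ) : ℝ) / (p : ℝ))

/-- The angle `θ / π` in `[0, 1]`, where `2 p ^ (1 / 2) cos θ = S(a, 1; p)`, and `1 / 2` if `p` divides `a`. -/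
noncomputable def angle (p : ℕ) (a : ℤ) : ℝ :=
  if (p : ℤ) ∣ a then 1 / 2 else Real.arccos (kloosterman p a / (2 * √(p : ℝ))) / Real.pi

open Classical in
/-- The number of the indices `k < K` for which the angles at the `s` consecutive primes with the indices
`k, ..., k + s - 1` (the primes are numbered from `0`) are in the sets `I 0, ..., I (s - 1)`. -/
noncomputable def boxCount {s : ℕ} (I : Fin s → Set ℝ) (K : ℕ) (a : ℤ) : ℕ :=
  ((range K).filter (fun k => ∀ i : Fin s, angle (Nat.nth Nat.Prime (k + i)) a ∈ I i)).card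

open Classical in
/-- The proportion of the residues `t` modulo `p` for which the angle at `P(t)` is in `S`. -/
noncomputable def proportion (P : ℤ[X]) (p : ℕ) (S : Set ℝ) : ℝ :=
  (((range p).filter (fun t : ℕ => angle p (P.eval (t : ℤ)) ∈ S)).card : ℝ) / p

/-- The expected number: the sum over `k < K` of the product of the proportions at the `s` primes. -/
noncomputable def boxModel {s : ℕ} (P : ℤ[X]) (I : Fin s → Set ℝ) (K : ℕ) : ℝ :=
  ∑ k ∈ range K, ∏ i : Fin s, proportion P (Nat.nth Nat.Prime (k + i)) (I i)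

open Classical in
/-- The number of the indices `k < K` such that for all `i < s` the prime `p` with the index `k + i` does not divide `a` and
`σ i S(a, 1; p) > η p ^ (1 / 2)`. -/
noncomputable def signCount (s : ℕ) (σ : Fin s → ℝ) (η : ℝ) (K : ℕ) (a : ℤ) : ℕ :=
  ((range K).filter (fun k => ∀ i : Fin s, ¬ ((Nat.nth Nat.Prime (k + i) : ℕ) : ℤ) ∣ a ∧
    η * √((Nat.nth Nat.Prime (k + i) : ℕ) : ℝ) < σ i * kloosterman (Nat.nth Nat.Prime (k + i)) a)).card

open Classical in
/-- The law of the angles for almost all members of the sequence `w`: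

(boxes) for every `δ > 0` there are `θ, C > 0` such that for all polynomials `P ∈ ℤ[T]` and all `N ≥ 1`, all the integers
`1 ≤ n ≤ N` with at most `C N ^ (1 - θ)` exceptions have the following property, with `a = P(w n)`: for every `K ≤ N ^ θ` and
every product of `s` intervals, the number of the `k < K` such that the angles of `S(a, 1; p)` at the `s` consecutive primes
with the numbers `k, ..., k + s - 1` are in the intervals differs from the expected number by at most
`C K ^ (1 / 2 + δ) (1 + log N) ^ (1 / 2)`;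

(signs) there is `θ > 0` such that for `0 ≤ η ≤ 1 / 4`, `ε > 0`, `κ ≠ 0` and all large `N` the following holds for all
integers `c₀`: for all the integers `1 ≤ n ≤ N` with at most `N ^ (1 - θ)` exceptions, with `a = c₀ + κ w n`, every
pattern of `s` signs occurs for the sums `S(a, 1; p)` at `s` consecutive primes, with sums of absolute value greater than
`η p ^ (1 / 2)`, for at least `((1 / 4 - η) ^ s - ε) K` of the indices `k < K`, for all `K` with `(log N) ^ 2 ≤ K ≤ N ^ θ`. -/
def Law (s : ℕ) (w : ℕ → ℤ) : Prop :=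
  (∀ δ : ℝ, 0 < δ → ∃ θ C : ℝ, 0 < θ ∧ 0 < C ∧ ∀ (P : ℤ[X]) (N : ℕ), 1 ≤ N →
    (((Icc 1 N).filter (fun n : ℕ => ¬ ∀ K : ℕ, (K : ℝ) ≤ (N : ℝ) ^ θ →
      ∀ I : Fin s → Set ℝ, (∀ i, (I i).OrdConnected) →
        |(boxCount I K (P.eval (w n)) : ℝ) - boxModel P I K| ≤
          C * ((K : ℝ) ^ (1 / 2 + δ) * √(1 + Real.log N)))).card : ℝ) ≤ C * (N : ℝ) ^ (1 - θ)) ∧
  (∃ θ : ℝ, 0 < θ ∧ ∀ η ε : ℝ, 0 ≤ η → η ≤ 1 / 4 → 0 < ε → ∀ κ : ℤ, κ ≠ 0 → ∃ N₀ : ℕ, ∀ N : ℕ, N₀ ≤ N → ∀ c₀ : ℤ,
    (((Icc 1 N).filter (fun n : ℕ => ¬ ∀ K : ℕ, Real.log N ^ 2 ≤ K → (K : ℝ) ≤ (N : ℝ) ^ θ →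
      ∀ σ : Fin s → ℝ, (∀ i, σ i = 1 ∨ σ i = -1) →
        ((1 / 4 - η) ^ s - ε) * K ≤ signCount s σ η K (c₀ + κ * w n))).card : ℝ) ≤ (N : ℝ) ^ (1 - θ))

/-- The derivatives of the consecutive functions `F n` are separated on `[u, v]` and their second derivatives increase. -/
def Spread (ρ u v : ℝ) (F : ℕ → ℝ → ℝ) : Prop :=
  (∀ n, ContDiff ℝ 2 (F n)) ∧ ∃ n₀ : ℕ, ∀ n, n₀ ≤ n → ∀ x ∈ Set.Icc u v,
    (n : ℝ) ^ (ρ - 1) ≤ deriv (F (n + 1)) x - deriv (F n) x ∧
      deriv (deriv (F n)) x ≤ deriv (deriv (F (n + 1))) x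

lemma law_of {s : ℕ} (hs : 1 ≤ s) {w : ℕ → ℤ} {ρ σ C₀ : ℝ}
    (hw : Pool.Agent.N193.PS.PED (Pool.Agent.L5helper14.MetK.hat w) ρ σ C₀) : Law s w := by
  have h1 := Pool.Agent.L5helper14.MetK.boxes_of_ped hw s hs
  refine ⟨fun δ hδ => ?_, Pool.Agent.L5helper14.MetK.signs_of_boxes hs h1⟩
  obtain ⟨κ, C, h2, _, h3, H⟩ := h1 δ hδ
  exact ⟨κ, C, h2, by linarith, H⟩

lemma both {s : ℕ} (hs : 1 ≤ s) (x : ℕ → Fin 1 → ℤ) (κ : ℝ) (hκ : 0 < κ) (hx : Pool.Agent.N54.ME.WS x κ) :
    Law s (fun n => x n 0) ∧ Law s (fun k => x (Nat.nth Nat.Prime k) 0) := by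
  have h1 := Pool.Agent.L5helper14.MetK.ws_mono x κ (min κ (1 / 2)) (min_le_left _ _) hx
  have hκ0 : 0 < min κ (1 / 2) := by positivity
  obtain ⟨a1, a2, a3, ha⟩ := Pool.Agent.L5helper14.MetK.ped_ints x _ hκ0 (min_le_right _ _) h1
  obtain ⟨b1, b2, b3, hb⟩ := Pool.Agent.L5helper14.MetK.ped_primes x _ hκ0 (min_le_right _ _) h1
  exact ⟨law_of hs ha, law_of hs hb⟩

lemma to_real (p : (Fin 1 → ℝ) → Prop) (h : ∀ᵐ α : Fin 1 → ℝ, p α) : ∀ᵐ ξ : ℝ, p (fun _ => ξ) := by
  have h1 := ((volume_preserving_funUnique (Fin 1) ℝ).symm _).quasiMeasurePreserving.ae h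
  refine h1.mono fun ξ hξ => ?_
  exact hξ

/-- Let `s ≥ 1` and `0 < ρ ≤ 1`.

(1) Let `F n` be functions whose derivatives are separated on `[u, v]` (see `Spread`). For almost every `ξ ∈ (u, v]` the law
of the angles (see `Law`) is true for almost all members of the sequence `⌊F n ξ⌋`, and also for almost all members of its
subsequence `⌊F p ξ⌋`, where `p` runs through the primes.

(2) This is so for almost every real `ξ` for the sequences `⌊ξ g(n) + c(n)⌋`, where `g` is any real sequence with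
`g(n + 1) - g(n) ≥ n ^ (ρ - 1)` for all large `n` and `c` is any real sequence.

(3) This is so for almost every `ξ > 1` for the sequences `⌊ξ ^ g(n) + c(n)⌋`, where `g` is any strictly increasing sequence
of nonnegative integers and `c` is any real sequence. -/
theorem result (s : ℕ) (hs : 1 ≤ s) (ρ : ℝ) (hρ : 0 < ρ) (hρ1 : ρ ≤ 1) :
    (∀ (u v : ℝ) (F : ℕ → ℝ → ℝ), Spread ρ u v F → ∀ᵐ ξ : ℝ, ξ ∈ Set.Ioc u v →
      Law s (fun n => ⌊F n ξ⌋) ∧ Law s (fun k => ⌊F (Nat.nth Nat.Prime k) ξ⌋)) ∧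
    (∀ g c : ℕ → ℝ, (∀ᶠ n : ℕ in atTop, (n : ℝ) ^ (ρ - 1) ≤ g (n + 1) - g n) → ∀ᵐ ξ : ℝ,
      Law s (fun n => ⌊ξ * g n + c n⌋) ∧ Law s (fun k => ⌊ξ * g (Nat.nth Nat.Prime k) + c (Nat.nth Nat.Prime k)⌋)) ∧
    (∀ (g : ℕ → ℕ) (c : ℕ → ℝ), StrictMono g → ∀ᵐ ξ : ℝ, 1 < ξ →
      Law s (fun n => ⌊ξ ^ g n + c n⌋) ∧ Law s (fun k => ⌊ξ ^ g (Nat.nth Nat.Prime k) + c (Nat.nth Nat.Prime k)⌋)) := by
  obtain ⟨h1, h2, h3⟩ := Pool.Agent.N54.ME.three (ι := Fin 1) hρ hρ1
    (fun x => Law s (fun n => x n 0) ∧ Law s (fun k => x (Nat.nth Nat.Prime k) 0))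
    (fun x hx => both hs x _ (Pool.Agent.N54.ME.kap_pos hρ _) hx)
  refine ⟨fun u v F hF => ?_, fun g c hg => ?_, fun g c hg => ?_⟩
  · have h4 := to_real _ (h1 (fun _ => u) (fun _ => v) (fun _ => F) (fun _ => hF))
    filter_upwards [h4] with ξ hξ hu
    exact hξ fun _ => hu
  · exact to_real _ (h2 (fun _ => g) (fun _ => c) (fun _ => hg))
  · have h4 := to_real _ (h3 (fun _ => g) (fun _ => c) (fun _ => hg))
    filter_upwards [h4] with ξ hξ hu
    exact hξ fun _ => hu

end Pool.Agent.Results.MP_6ea630_nt.MetricSequences
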