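import Pool.Agent.L5helper16.KL.Signs
import Pool.Agent.L5helper16.XC.CG
import Pool.Agent.L5helper16.XC.F

/-!
# The Kloosterman angles for random integers whose digits form a Markov random field

Method: for a Markov random field with flexible digits on a graph of bounded degree the exponential sums are exponentially
small in the number of the places at which the frequency is not close to a rational number with a small denominator
(starting files, `Pool.Agent.N213.GF`); this decay gives the passage to sums over primes of functions of residues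
(`Pool.Agent.L5helper16.XC.CG`, after helper794, `Pool.Agent.N794.CG`). The signs in the finite-field model are from the
starting files (`Pool.Agent.TH894.NF3`).
-/

set_option autoImplicit false

namespace Pool.Agent.Results.MP_6ea630_nt.RandomFields

open Finset Filter Polynomial Pool.Agent.N794.CG Pool.Agent.L5helper16

/-- The Kloosterman sum `S(a, 1; p)`. -/
noncomputable def kloosterman (p : ℕ) (a : ℤ) : ℝ :=
  ∑ x ∈ Ico 1 p, Real.cos (2 * Real.pi * ((((a : ZMod p) * (x : ZMod p) + (x : ZMod p)⁻¹).val : ℕ) : ℝ) / (p : ℝ))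

/-- The angle `θ / π` in `[0, 1]`, where `2 p ^ (1 / 2) cos θ = S(a, 1; p)`, and `1 / 2` if `p` divides `a`. -/
noncomputable def angle (p : ℕ) (a : ℤ) : ℝ :=
  if (p : ℤ) ∣ a then 1 / 2 else Real.arccos (kloosterman p a / (2 * √(p : ℝ))) / Real.pi

open Classical in
/-- The number of the primes `p ≤ x` for which the angle of `S(a, 1; p)` is in `I`. -/
noncomputable def count (I : Set ℝ) (x : ℕ) (a : ℤ) : ℕ :=
  ((range (x + 1)).filter (fun p => p.Prime ∧ angle p a ∈ I)).card

open Classical in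
/-- The proportion of the residues `t` modulo `p` for which the angle at `P(t)` is in `I`. -/
noncomputable def proportion (P : ℤ[X]) (p : ℕ) (I : Set ℝ) : ℝ :=
  (((range p).filter (fun t : ℕ => angle p (P.eval (t : ℤ)) ∈ I)).card : ℝ) / p

/-- The sum of the proportions over the primes `p ≤ x`. -/
noncomputable def model (P : ℤ[X]) (I : Set ℝ) (x : ℕ) : ℝ :=
  ∑ p ∈ (range (x + 1)).filter Nat.Prime, proportion P p I

open Classical in
/-- The number of the primes `p ≤ x` which do not divide `a` and satisfy `σ S(a, 1; p) > η p ^ (1 / 2)`. -/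
noncomputable def signCount (σ η : ℝ) (x : ℕ) (a : ℤ) : ℕ :=
  ((range (x + 1)).filter (fun p : ℕ => p.Prime ∧ ¬ (p : ℤ) ∣ a ∧ η * √(p : ℝ) < σ * kloosterman p a)).card

/-- The digit of `v` at the position `i` in base `b` (the position `0` is the least significant one). -/
def dig (b v i : ℕ) : ℕ := v / b ^ i % b

/-- The integer which has the digits of `v` at the positions in `S` and the digits of `w` at the other positions below `k`. -/
def splice (b k : ℕ) (S : Finset ℕ) (v w : ℕ) : ℕ := ∑ i ∈ range k, (if i ∈ S then dig b v i else dig b w i) * b ^ i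

/-- `v` and `w` have the same digits outside the set `S` of positions. -/
def Off (b : ℕ) (S : Finset ℕ) (v w : ℕ) : Prop := ∀ i, i ∉ S → dig b v i = dig b w i

open Classical in
/-- The closed neighbourhood of the position `i` in the graph `A` on the positions `0, …, k - 1`. -/
noncomputable def nb (k : ℕ) (A : ℕ → ℕ → Prop) (i : ℕ) : Finset ℕ := (range k).filter fun j => j = i ∨ A i j

open Classical in
/-- The total weight of the integers below `b ^ k` which have the same digits as `v` outside `S`. -/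
noncomputable def mass (b k : ℕ) (p : ℕ → ℝ) (S : Finset ℕ) (v : ℕ) : ℝ :=
  ∑ w ∈ (range (b ^ k)).filter (fun w => Off b S w v), p w

/-- The digits of a random integer `v < b ^ k` (with the probabilities `p v`) form a Markov random field on a graph `A` of
positions with degrees at most `Δ` (the Markov property: for every set `S` of positions and all `v`, `w` which have the same
digits at the positions outside `S` adjacent to `S`, the product `p v * p w` does not change if `v` and `w` exchange their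
digits in `S`), and each digit is flexible: for every `v` with `p v ≠ 0` and every position `i`, there are `x` and `y` which
have the same digits as `v` outside the closed neighbourhood of `i`, which differ from each other exactly at the position
`i`, and whose conditional probabilities, given the digits outside this neighbourhood, are at least `η`. -/
structure Field (b k Δ : ℕ) (η : ℝ) (A : ℕ → ℕ → Prop) (p : ℕ → ℝ) : Prop where
  symm : ∀ i j, A i j → A j i
  degree : ∀ i < k, (nb k A i).card ≤ Δ + 1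
  nonneg : ∀ v, 0 ≤ p v
  sum : ∑ v ∈ range (b ^ k), p v = 1
  markov : ∀ S : Finset ℕ, ∀ v < b ^ k, ∀ w < b ^ k, (∀ i ∈ S, ∀ j < k, j ∉ S → A i j → dig b v j = dig b w j) →
    p v * p w = p (splice b k S v w) * p (splice b k S w v)
  flexible : ∀ v < b ^ k, p v ≠ 0 → ∀ i < k, ∃ x < b ^ k, ∃ y < b ^ k, Off b (nb k A i) x v ∧ Off b {i} y x ∧
    dig b y i ≠ dig b x i ∧ η * mass b k p (nb k A i) v ≤ p x ∧ η * mass b k p (nb k A i) v ≤ p y

lemma field_conv {b k Δ : ℕ} {η : ℝ} {A : ℕ → ℕ → Prop} {p : ℕ → ℝ} (h : Field b k Δ η A p) :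
    Pool.Agent.N213.GF.Field b k Δ η A p :=
  ⟨h.symm, h.degree, h.nonneg, h.sum, h.markov, h.flexible⟩

open Classical in
/-- If `v < b ^ k` is random with the distribution `w`, then `P v` holds with a probability of at least `1 - τ`. -/
def Almost (b k : ℕ) (w : ℕ → ℝ) (τ : ℝ) (P : ℤ → Prop) : Prop :=
  ∑ v ∈ range (b ^ k), (if P v then 0 else w v) ≤ τ

lemma almost_of {b k : ℕ} {p : ℕ → ℝ} {τ : ℝ} {P Q : ℤ → Prop}
    (h : Mostly (range (b ^ k)) p (fun v => 0 + 1 * (v : ℕ)) τ P) (hPQ : ∀ n, P n → Q n) : Almost b k p τ Q := by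
  classical
  have h1 := h ((range (b ^ k)).filter (fun v : ℕ => ¬ Q v)) (filter_subset _ _)
    (fun i hi hP => (mem_filter.1 hi).2 (by
      have := hPQ _ hP
      simp only [zero_add, one_mul] at this
      exact this))
  unfold Almost
  refine le_trans (le_of_eq ?_) h1
  rw [sum_filter]
  apply sum_congr rfl
  intro v _
  by_cases hv : Q v
  · rw [if_pos hv, if_neg (not_not.2 hv)]
  · rw [if_neg hv, if_pos hv]

/-- Let `b ≥ 2`, `Δ`, `β > 0` and `0 < δ ≤ 1 / 4` be fixed. There is `W` such that the following holds.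

(1) For all sufficiently large `X`, all `k`, all random integers `v < b ^ k`, with the probabilities `w v`, whose digits form a
Markov random field with flexible digits on some graph of positions with degrees at most `Δ` (`Field b k Δ β G w`), and ALL
polynomials `P ∈ ℤ[t]`: with a probability of at least `1 - 2 X ^ (-δ)` one has, for ALL `x ≥ X` with `x ^ W ≤ b ^ k` and ALL
intervals `I`: the number of the primes `p ≤ x` for which the angle of the Kloosterman sum `S(P(v), 1; p)` is in `I` differs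
from the sum over `p ≤ x` of the proportion of the residues `t` modulo `p` for which the angle of `S(P(t), 1; p)` is in `I` by
at most `2 x ^ (1 / 2 + δ)`.

(2) Let `0 ≤ η ≤ 1 / 4`, `ε > 0` and let `κ ≠ 0` be an integer. For all sufficiently large `X`, all `k`, `G`, `w` as in (1) and
all integers `c`: with a probability of at least `1 - 2 X ^ (-δ)` the integer `a = c + κ v` satisfies, for all `x ≥ X` with
`x ^ W ≤ b ^ k`: both `S(a, 1; p) > η p ^ (1 / 2)` and `S(a, 1; p) < -η p ^ (1 / 2)` hold for at least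
`(1 / 4 - η - ε) π(x)` of the primes `p ≤ x`. -/
theorem result (b Δ : ℕ) (hb : 2 ≤ b) (β : ℝ) (hβ : 0 < β) (δ : ℝ) (hδ : 0 < δ) (hδ1 : δ ≤ 1 / 4) : ∃ W : ℕ, 1 ≤ W ∧
    (∃ X₀ : ℕ, ∀ X : ℕ, X₀ ≤ X → ∀ (k : ℕ) (G : ℕ → ℕ → Prop) (w : ℕ → ℝ), Field b k Δ β G w → ∀ P : ℤ[X],
      Almost b k w (2 * (X : ℝ) ^ (-δ)) (fun v => ∀ x : ℕ, X ≤ x → x ^ W ≤ b ^ k →
        ∀ I : Set ℝ, I.OrdConnected → |(count I x (P.eval v) : ℝ) - model P I x| ≤ 2 * (x : ℝ) ^ (1 / 2 + δ))) ∧
    (∀ η ε : ℝ, 0 ≤ η → η ≤ 1 / 4 → 0 < ε → ∀ κ : ℤ, κ ≠ 0 → ∃ X₀ : ℕ, ∀ X : ℕ, X₀ ≤ X → ∀ (k : ℕ) (G : ℕ → ℕ → Prop)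
      (w : ℕ → ℝ), Field b k Δ β G w → ∀ c : ℤ,
      Almost b k w (2 * (X : ℝ) ^ (-δ)) (fun v => ∀ x : ℕ, X ≤ x → x ^ W ≤ b ^ k →
        ∀ σ : ℝ, (σ = 1 ∨ σ = -1) → (1 / 4 - η - ε) * Nat.primeCounting x ≤ signCount σ η x (c + κ * v))) := by
  obtain ⟨W, hW, H⟩ := XC.eng_pc (fun X : ℕ => by positivity) (eng_ang δ hδ (by linarith)) (XC.pc_field b Δ β hb hβ)
  obtain ⟨X₀, J⟩ := H 1 one_ne_zero
  have main : ∀ X : ℕ, X₀ ≤ X → ∀ (k : ℕ) (G : ℕ → ℕ → Prop) (w : ℕ → ℝ), Field b k Δ β G w → ∀ P : ℤ[X],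
      Mostly (range (b ^ k)) w (fun v => 0 + 1 * (v : ℕ)) (2 * (X : ℝ) ^ (-δ)) (fun v => ∀ x : ℕ, X ≤ x →
        x ^ W ≤ b ^ k → ∀ I : Set ℝ, I.OrdConnected →
        |(KL.count I x (P.eval v) : ℝ) - KL.model P I x| ≤ 2 * (x : ℝ) ^ (1 / 2 + δ)) := by
    intro X hX k G w hw P
    have h1 := J X hX k w ⟨G, field_conv hw⟩ 0 (KL.sp P)
    have h2 := J X hX k w ⟨G, field_conv hw⟩ 0 (KL.sn P)
    have h3 := Mostly.and (fun i _ => hw.nonneg i) h1 h2
    have e : 2 * (X : ℝ) ^ (-δ) = (k : ℝ) ^ 0 * (X : ℝ) ^ (-δ) + (k : ℝ) ^ 0 * (X : ℝ) ^ (-δ) := by rw [pow_zero]; ring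
    rw [e]
    exact h3.mono fun n hn x hXx hxW I hI => KL.all_intervals δ P x n (hn.1 x hXx hxW) (hn.2 x hXx hxW) I hI
  refine ⟨W, hW, ⟨X₀, fun X hX k G w hw P => almost_of (main X hX k G w hw P) fun n hn => hn⟩, ?_⟩
  intro η ε hη hη1 hε κ hκ
  obtain ⟨x₁, h1⟩ := KL.signs_of δ η ε hδ1 hη hη1 hε κ hκ
  refine ⟨X₀ + x₁, fun X hX k G w hw c => almost_of (main X (by omega) k G w hw (C c + C κ * Polynomial.X)) ?_⟩
  intro n hn x hXx hxW σ hσ
  exact h1 x (by omega) c n (hn x hXx hxW) σ hσ

end Pool.Agent.Results.MP_6ea630_nt.RandomFields
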